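import Pool.Agent.Q130.BC.Game

set_option autoImplicit false

/-! # Builder can force all cliques from graphs of arbitrarily large girth

In the degree-preserving Builder-Chooser game `ρ(k, g)` is finite for all `k, g ≥ 3`; a starting
graph can even be a perfect matching.

Proof: in every round Builder matches one neighbour (fuel) of every earlier new vertex, so that the
new vertex is joined to all the earlier new vertices; fuel and fresh edges are split into halves.
On the graph of the new vertices `2 ^ r` edge-disjoint cliques `K_j` survive `r` splits.  Builder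
makes many groups of edge-disjoint `K_j` on disjoint vertex sets, the earlier ones larger, so that
in the end every group still has a clique; the next new vertex extends them to edge-disjoint
cliques `K_(j+1)`. -/

namespace Pool.Agent.Results.MP_d3b86e_co.RhoFinite

open SimpleGraph

/-- the graph `G⁺` on `V ∪ {w}`, the new vertex `w` being `none`: the edges of the matching `M` are
deleted and `w` is joined to all endpoints of the edges of `M` -/
def plus {V : Type} (G : SimpleGraph V) (M : G.Subgraph) : SimpleGraph (Option V) where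
  Adj u v := match u, v with
    | some x, some y => G.Adj x y ∧ ¬ M.Adj x y
    | some x, none => x ∈ M.verts
    | none, some y => y ∈ M.verts
    | none, none => False
  symm := ⟨fun u v h => by
    cases u <;> cases v
    · exact h
    · exact h
    · exact h
    · exact ⟨h.1.symm, fun h' => h.2 h'.symm⟩⟩
  loopless := ⟨fun u h => by
    cases u
    · exact h
    · exact h.1.ne rfl⟩

/-- Builder has a strategy which guarantees that the graph after exactly `t` rounds contains `K_k`:
he picks a matching `M` and a partition of the edges of `G⁺` into the edge sets of `A` and `B`;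
Chooser picks one of the two -/
def Forces (k : ℕ) : ℕ → (V : Type) → SimpleGraph V → Prop
  | 0, _, G => ¬ G.CliqueFree k
  | t + 1, V, G => ∃ M : G.Subgraph, M.IsMatching ∧ ∃ A B : SimpleGraph (Option V),
      A ⊔ B = plus G M ∧ Disjoint A B ∧ Forces k t (Option V) A ∧ Forces k t (Option V) B

/-- the forcing time of `K_k` from `G`, `⊤` if Builder cannot force `K_k` -/
noncomputable def tau (k : ℕ) {V : Type} (G : SimpleGraph V) : ℕ∞ :=
  ⨅ (t : ℕ) (_ : Forces k t V G), (t : ℕ∞)

/-- `ρ(k, g)` -/
noncomputable def rho (k g : ℕ) : ℕ∞ :=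
  ⨅ (V : Type) (_ : Finite V) (G : SimpleGraph V) (_ : (g : ℕ∞) ≤ G.egirth), tau k G

lemma forces_iff (k t : ℕ) : ∀ (V : Type) (G : SimpleGraph V),
    Pool.Agent.Q130.BC.Forces k t V G → Forces k t V G := by
  induction t with
  | zero => exact fun V G h => h
  | succ t ih =>
    rintro V G ⟨M, hM, A, B, h1, h2, h3, h4⟩
    refine ⟨M, hM, A, B, ?_, h2, ih _ A h3, ih _ B h4⟩
    rw [h1]
    ext u v
    cases u <;> cases v <;> rfl

/-- a perfect matching -/
def pm (a b : ℕ) : SimpleGraph (Fin a × Fin b × Bool) where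
  Adj u v := u.1 = v.1 ∧ u.2.1 = v.2.1 ∧ u.2.2 ≠ v.2.2
  symm := ⟨fun u v h => ⟨h.1.symm, h.2.1.symm, h.2.2.symm⟩⟩
  loopless := ⟨fun u h => h.2.2 rfl⟩

lemma pm_egirth (a b : ℕ) : (pm a b).egirth = ⊤ := by
  rw [eq_top_iff, le_egirth]
  intro v w hw
  exfalso
  have h3 := hw.three_le_length
  have h1 := w.adj_getVert_succ (i := 0) (by omega)
  have h2 := w.adj_getVert_succ (i := 1) (by omega)
  have hne := hw.getVert_sub_one_ne_getVert_add_one (i := 1) (by omega)
  apply hne
  obtain ⟨a1, a2, a3⟩ := h1
  obtain ⟨b1, b2, b3⟩ := h2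
  apply Prod.ext
  · exact a1.trans b1
  · apply Prod.ext
    · exact a2.trans b2
    · have e : ∀ x y z : Bool, x ≠ y → y ≠ z → x = z := by decide
      exact e _ _ _ a3 b3

/-- the strongest form: a matching is a good starting graph -/
theorem main (k : ℕ) (hk : 1 ≤ k) : ∃ (a b t : ℕ), Forces k t _ (pm a b) := by
  obtain ⟨j, rfl⟩ : ∃ j, k = j + 1 := ⟨k - 1, by omega⟩
  obtain ⟨n, hn⟩ := Pool.Agent.Q130.BC.cliques j 0
  refine ⟨n + 1, 3 ^ n + 1, n, forces_iff _ _ _ _ ?_⟩
  set I : ℕ → Finset ℕ := fun s => if s < n then Finset.range (3 ^ n) else ∅ with hI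
  have hmem : ∀ s i, i ∈ I s → s < n ∧ i < 3 ^ n := by
    intro s i h
    rw [hI] at h
    simp only at h
    split_ifs at h with h1
    · exact ⟨h1, Finset.mem_range.1 h⟩
    · simp at h
  refine Pool.Agent.Q130.BC.realise (j + 1) n 0 ⊥ (hn 0) (fun x y h => absurd h (by simp)) I ?_
    _ _ (fun p => match p with
      | .inl _ => (0, 0, false)
      | .inr (s, i, b) => (Fin.ofNat (n + 1) s, Fin.ofNat (3 ^ n + 1) i, b)) ?_ ?_
  · intro s hs
    rw [hI]
    simp only
    rw [if_pos (by omega), Finset.card_range]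
  · intro p q hp hq h
    rcases p with s | ⟨s, i, b⟩ <;> rcases q with s' | ⟨s', i', b'⟩
    · exact absurd hp (Nat.not_lt_zero _)
    · exact absurd hp (Nat.not_lt_zero _)
    · exact absurd hq (Nat.not_lt_zero _)
    · obtain ⟨h1, h2⟩ := hmem s i hp
      obtain ⟨h3, h4⟩ := hmem s' i' hq
      simp only [Prod.mk.injEq, Fin.ext_iff, Fin.val_ofNat] at h
      obtain ⟨e1, e2, e3⟩ := h
      rw [Nat.mod_eq_of_lt (by omega), Nat.mod_eq_of_lt (by omega)] at e1 e2
      rw [e1, e2, e3]
  · intro p q h
    rcases p with s | ⟨s, i, b⟩ <;> rcases q with s' | ⟨s', i', b'⟩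
    · exact absurd (show (⊥ : SimpleGraph ℕ).Adj s s' from h) (by simp)
    · exact absurd h.2.2.1 (Nat.not_lt_zero _)
    · exact absurd h.2.2.1 (Nat.not_lt_zero _)
    · obtain ⟨h1, h2, h3, _, _⟩ := h
      subst h1; subst h2
      exact ⟨rfl, rfl, h3⟩

theorem result (k g : ℕ) (hk : 3 ≤ k) (_hg : 3 ≤ g) : rho k g < ⊤ := by
  obtain ⟨a, b, t, h⟩ := main k (by omega)
  have h1 : rho k g ≤ tau k (pm a b) := by
    unfold rho
    refine iInf_le_of_le _ (iInf_le_of_le inferInstance (iInf_le_of_le (pm a b) ?_))
    exact iInf_le_of_le (by rw [pm_egirth]; exact le_top) le_rfl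
  have h2 : tau k (pm a b) ≤ (t : ℕ∞) := iInf_le_of_le t (iInf_le_of_le h le_rfl)
  exact (h1.trans h2).trans_lt (ENat.natCast_lt_top t)

end Pool.Agent.Results.MP_d3b86e_co.RhoFinite
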